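import Pool.Agent.Q277.DDs.Def

/-!
# Counting permutations with exactly one double descent

Lemma job for helper277: `comb : StComb`.
-/

set_option autoImplicit false

namespace Pool.Agent.Q34.DDs

open Pool.Agent.Q277.DDs Finset

/-! ## Polynomials -/

/-- divided powers -/
noncomputable def be (k l : ℕ) (x : ℝ) : ℝ := x ^ k * (1 - x) ^ l / (k.factorial * l.factorial)

/-- the polynomial of a counting function -/
noncomputable def LL (m : ℕ) (f : ℕ → ℝ) (x : ℝ) : ℝ := ∑ k ∈ range (m + 1), f k * be k (m - k) x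

lemma be_der (j l : ℕ) (x : ℝ) : HasDerivAt (be j l)
    ((if j = 0 then 0 else be (j - 1) l x) - (if l = 0 then 0 else be j (l - 1) x)) x := by
  have h1 : HasDerivAt (fun x : ℝ => x ^ j) (j * x ^ (j - 1)) x := hasDerivAt_pow j x
  have h2 : HasDerivAt (fun x : ℝ => (1 - x) ^ l) (l * (1 - x) ^ (l - 1) * (-1)) x :=
    ((hasDerivAt_id x).const_sub 1).pow l
  have h3 := (h1.mul h2).div_const ((j.factorial : ℝ) * l.factorial)
  refine h3.congr_deriv ?_
  unfold be
  rcases Nat.eq_zero_or_pos j with hj | hj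
  · subst hj
    rcases Nat.eq_zero_or_pos l with hl | hl
    · subst hl; simp
    · obtain ⟨l, rfl⟩ : ∃ l', l = l' + 1 := ⟨l - 1, by omega⟩
      have hl1 : (l.factorial : ℝ) ≠ 0 := by positivity
      have hl2 : ((l : ℝ) + 1) ≠ 0 := by positivity
      simp only [Nat.factorial_succ, Nat.cast_mul, Nat.cast_succ, Nat.add_sub_cancel, if_true,
        Nat.succ_ne_zero, if_false]
      field_simp
      simp
  · obtain ⟨j, rfl⟩ : ∃ l', j = l' + 1 := ⟨j - 1, by omega⟩
    have hj1 : (j.factorial : ℝ) ≠ 0 := by positivity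
    have hj2 : ((j : ℝ) + 1) ≠ 0 := by positivity
    rcases Nat.eq_zero_or_pos l with hl | hl
    · subst hl
      simp only [Nat.factorial_succ, Nat.cast_mul, Nat.cast_succ, Nat.add_sub_cancel, if_true,
        Nat.succ_ne_zero, if_false]
      field_simp
      simp
    · obtain ⟨l, rfl⟩ : ∃ l', l = l' + 1 := ⟨l - 1, by omega⟩
      have hl1 : (l.factorial : ℝ) ≠ 0 := by positivity
      have hl2 : ((l : ℝ) + 1) ≠ 0 := by positivity
      simp only [Nat.factorial_succ, Nat.cast_mul, Nat.cast_succ, Nat.add_sub_cancel,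
        Nat.succ_ne_zero, if_false]
      field_simp
      ring

lemma LL_der (m : ℕ) (g : ℕ → ℝ) (x : ℝ) :
    HasDerivAt (LL (m + 1) g) (LL m (fun k => g (k + 1) - g k) x) x := by
  have h1 : HasDerivAt (LL (m + 1) g) (∑ j ∈ range (m + 1 + 1), g j *
      ((if j = 0 then 0 else be (j - 1) (m + 1 - j) x) -
        (if m + 1 - j = 0 then 0 else be j (m + 1 - j - 1) x))) x := by
    have h0 : LL (m + 1) g = fun x => ∑ j ∈ range (m + 1 + 1), g j * be j (m + 1 - j) x := rfl
    rw [h0]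
    exact HasDerivAt.fun_sum fun j _ => (be_der j (m + 1 - j) x).const_mul (g j)
  refine h1.congr_deriv ?_
  simp only [mul_sub, sum_sub_distrib]
  rw [sum_range_succ' (fun j => g j * (if j = 0 then 0 else be (j - 1) (m + 1 - j) x)),
    sum_range_succ (fun j => g j * (if m + 1 - j = 0 then 0 else be j (m + 1 - j - 1) x)) (m + 1)]
  simp only [if_true, mul_zero, add_zero, Nat.sub_self, Nat.succ_ne_zero, if_false,
    Nat.add_sub_cancel]
  unfold LL
  rw [← sum_sub_distrib]
  refine sum_congr rfl fun k hk => ?_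
  have hk' : k ≤ m := by rw [mem_range] at hk; omega
  have e1 : m + 1 - (k + 1) = m - k := by omega
  have e2 : ¬ (m + 1 - k = 0) := by omega
  have e3 : m + 1 - k - 1 = m - k := by omega
  rw [if_neg e2, e1, e3, sub_mul]

lemma LL_cont (m : ℕ) (f : ℕ → ℝ) : Continuous (LL m f) := by
  unfold LL be
  fun_prop

lemma LL_zero (m : ℕ) (g : ℕ → ℝ) (h : g 0 = 0) : LL m g 0 = 0 := by
  unfold LL be
  refine sum_eq_zero fun k _ => ?_
  rcases Nat.eq_zero_or_pos k with hk | hk
  · rw [hk, h, zero_mul]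
  · rw [zero_pow hk.ne']; simp

lemma LL_one (m : ℕ) (g : ℕ → ℝ) : LL m g 1 = g m / m.factorial := by
  unfold LL be
  rw [sum_range_succ, sum_eq_zero]
  · simp [div_eq_mul_inv]
  · intro k hk
    have h1 : m - k ≠ 0 := by rw [mem_range] at hk; omega
    rw [sub_self, zero_pow h1]; simp

lemma LL_congr {m : ℕ} {f g : ℕ → ℝ} (h : ∀ k ≤ m, f k = g k) (x : ℝ) : LL m f x = LL m g x := by
  unfold LL
  exact sum_congr rfl fun k hk => by rw [h k (by rw [mem_range] at hk; omega)]

lemma LL_add (m : ℕ) (f g : ℕ → ℝ) (x : ℝ) : LL m f x + LL m g x = LL m (fun k => f k + g k) x := by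
  unfold LL
  rw [← sum_add_distrib]
  exact sum_congr rfl fun k _ => by ring

/-- sums below -/
noncomputable def lo (f : ℕ → ℝ) (j : ℕ) : ℝ := ∑ k ∈ range j, f k

/-- sums above -/
noncomputable def hi (m : ℕ) (f : ℕ → ℝ) (j : ℕ) : ℝ := ∑ k ∈ Ico j (m + 1), f k

lemma int_lo (m : ℕ) (f : ℕ → ℝ) (x : ℝ) : ∫ t in (0:ℝ)..x, LL m f t = LL (m + 1) (lo f) x := by
  have h1 : ∀ t ∈ Set.uIcc (0:ℝ) x, HasDerivAt (LL (m + 1) (lo f)) (LL m f t) t := by
    intro t _
    refine (LL_der m (lo f) t).congr_deriv (LL_congr (fun k _ => ?_) t)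
    unfold lo
    rw [sum_range_succ, add_sub_cancel_left]
  rw [intervalIntegral.integral_eq_sub_of_hasDerivAt h1 ((LL_cont m f).intervalIntegrable _ _),
    LL_zero _ _ (by unfold lo; simp), sub_zero]

lemma int_hi (m : ℕ) (f : ℕ → ℝ) (x : ℝ) : ∫ t in x..(1:ℝ), LL m f t = LL (m + 1) (hi m f) x := by
  have h1 : ∀ t ∈ Set.uIcc x (1:ℝ), HasDerivAt (fun t => - LL (m + 1) (hi m f) t) (LL m f t) t := by
    intro t _
    refine (LL_der m (hi m f) t).neg.congr_deriv ?_
    have h2 : LL m f t = - LL m (fun k => - f k) t := by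
      unfold LL
      rw [← sum_neg_distrib]
      exact sum_congr rfl fun k _ => by ring
    rw [h2, LL_congr (fun k hk => ?_) t]
    unfold hi
    rw [sum_eq_sum_Ico_succ_bot (show k < m + 1 by omega)]
    ring
  rw [intervalIntegral.integral_eq_sub_of_hasDerivAt h1 ((LL_cont m f).intervalIntegrable _ _),
    LL_one]
  unfold hi
  simp

lemma int_all (m : ℕ) (f : ℕ → ℝ) :
    ∫ t in (0:ℝ)..1, LL m f t = (∑ k ∈ range (m + 1), f k) / (m + 1).factorial := by
  rw [int_lo, LL_one, lo]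

/-! ## Permutations -/

/-- appending a last value -/
def app (m : ℕ) (a : Fin (m + 2)) (w : Equiv.Perm (Fin (m + 1))) : Fin (m + 2) → Fin (m + 2) :=
  Fin.snoc (α := fun _ => Fin (m + 2)) (fun j => a.succAbove (w j)) a

lemma app_last {m : ℕ} (a : Fin (m + 2)) (w : Equiv.Perm (Fin (m + 1))) :
    app m a w (Fin.last _) = a := by
  unfold app; rw [Fin.snoc_last]

lemma app_cast {m : ℕ} (a : Fin (m + 2)) (w : Equiv.Perm (Fin (m + 1))) (j : Fin (m + 1)) :
    app m a w j.castSucc = a.succAbove (w j) := by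
  unfold app; rw [Fin.snoc_castSucc]

lemma app_inj {m : ℕ} (a : Fin (m + 2)) (w : Equiv.Perm (Fin (m + 1))) :
    Function.Injective (app m a w) := by
  intro x y
  refine Fin.lastCases ?_ (fun x => ?_) x <;> refine Fin.lastCases ?_ (fun y => ?_) y
  · intro _; rfl
  · rw [app_last, app_cast]
    intro h
    exact absurd h.symm (Fin.succAbove_ne a (w y))
  · rw [app_last, app_cast]
    intro h
    exact absurd h (Fin.succAbove_ne a (w x))
  · rw [app_cast, app_cast]
    intro h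
    rw [w.injective (Fin.succAbove_right_injective h)]

/-- appending a last value, as a permutation -/
noncomputable def EE (m : ℕ) (x : Fin (m + 2) × Equiv.Perm (Fin (m + 1))) :
    Equiv.Perm (Fin (m + 2)) :=
  Equiv.ofBijective (app m x.1 x.2) (Finite.injective_iff_bijective.mp (app_inj x.1 x.2))

lemma EE_last {m : ℕ} (x : Fin (m + 2) × Equiv.Perm (Fin (m + 1))) :
    EE m x (Fin.last _) = x.1 := app_last x.1 x.2

lemma EE_cast {m : ℕ} (x : Fin (m + 2) × Equiv.Perm (Fin (m + 1))) (j : Fin (m + 1)) :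
    EE m x j.castSucc = x.1.succAbove (x.2 j) := app_cast x.1 x.2 j

lemma EE_bij (m : ℕ) : Function.Bijective (EE m) := by
  rw [Fintype.bijective_iff_injective_and_card]
  constructor
  · rintro ⟨a, w⟩ ⟨b, w'⟩ h
    have h1 : a = b := by
      have h2 := congrArg (fun e => e (Fin.last _)) h
      simpa [EE_last] using h2
    subst h1
    have h3 : w = w' := by
      ext j
      have h2 := congrArg (fun e => e j.castSucc) h
      simp only [EE_cast] at h2
      rw [Fin.succAbove_right_injective h2]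
    rw [h3]
  · rw [Fintype.card_prod, Fintype.card_perm, Fintype.card_perm, Fintype.card_fin,
      Fintype.card_fin]
    rfl

/-- the last step is a descent -/
def desc {m : ℕ} (w : Equiv.Perm (Fin (m + 1))) : Prop :=
  ∃ h : 1 ≤ m, w (Fin.last m) < w ⟨m - 1, by omega⟩

lemma desc_EE {m : ℕ} (x : Fin (m + 2) × Equiv.Perm (Fin (m + 1))) :
    desc (EE m x) ↔ x.1.val ≤ (x.2 (Fin.last m)).val := by
  have h1 : ∀ h : m + 1 - 1 < m + 1 + 1, EE m x ⟨m + 1 - 1, h⟩ =
      x.1.succAbove (x.2 (Fin.last m)) := by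
    intro h
    rw [← EE_cast]
    rfl
  constructor
  · rintro ⟨_, h⟩
    rw [h1, EE_last, Fin.lt_succAbove_iff_le_castSucc] at h
    exact h
  · intro h
    refine ⟨by omega, ?_⟩
    rw [h1, EE_last, Fin.lt_succAbove_iff_le_castSucc]
    exact h

lemma isDD_EE {m : ℕ} (x : Fin (m + 2) × Equiv.Perm (Fin (m + 1))) (j : ℕ) :
    IsDoubleDescent (EE m x) j ↔ IsDoubleDescent x.2 j ∨
      (j = m + 1 ∧ desc x.2 ∧ x.1.val ≤ (x.2 (Fin.last m)).val) := by
  have key : ∀ k (hk : k < m + 1), EE m x ⟨k, by omega⟩ = x.1.succAbove (x.2 ⟨k, hk⟩) := by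
    intro k hk
    rw [← EE_cast]
    rfl
  constructor
  · rintro ⟨h1, h2, h3, h4⟩
    by_cases hj : j = m + 1
    · right
      subst hj
      refine ⟨rfl, ⟨by omega, ?_⟩, ?_⟩
      · rw [key (m + 1 - 2) (by omega), key (m + 1 - 1) (by omega)] at h3
        have h5 := Fin.succAbove_lt_succAbove_iff.mp h3
        exact h5
      · rw [← desc_EE]
        exact ⟨by omega, h4⟩
    · left
      refine ⟨h1, by omega, ?_, ?_⟩
      · rw [key (j - 2) (by omega), key (j - 1) (by omega)] at h3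
        exact Fin.succAbove_lt_succAbove_iff.mp h3
      · rw [key (j - 1) (by omega), key j (by omega)] at h4
        exact Fin.succAbove_lt_succAbove_iff.mp h4
  · rintro (⟨h1, h2, h3, h4⟩ | ⟨rfl, ⟨h1, h2⟩, h3⟩)
    · refine ⟨h1, by omega, ?_, ?_⟩
      · rw [key (j - 2) (by omega), key (j - 1) (by omega)]
        exact Fin.succAbove_lt_succAbove_iff.mpr h3
      · rw [key (j - 1) (by omega), key j (by omega)]
        exact Fin.succAbove_lt_succAbove_iff.mpr h4
    · refine ⟨by omega, by omega, ?_, ?_⟩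
      · rw [key (m + 1 - 2) (by omega), key (m + 1 - 1) (by omega)]
        exact Fin.succAbove_lt_succAbove_iff.mpr h2
      · rw [← desc_EE] at h3
        exact h3.2

/-- the double descents among the first values -/
def Ok (i : ℕ) {m : ℕ} (w : Equiv.Perm (Fin (m + 1))) : Prop :=
  ∀ j, IsDoubleDescent w j ↔ (j = i ∧ i ≤ m)

lemma not_isDD {m : ℕ} (w : Equiv.Perm (Fin (m + 1))) : ¬ IsDoubleDescent w (m + 1) := by
  rintro ⟨_, h, _⟩; omega

lemma Ok_EE {i m : ℕ} (x : Fin (m + 2) × Equiv.Perm (Fin (m + 1))) (h : m + 1 ≠ i) :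
    Ok i (EE m x) ↔ Ok i x.2 ∧ ¬ (desc x.2 ∧ x.1.val ≤ (x.2 (Fin.last m)).val) := by
  unfold Ok
  constructor
  · intro H
    constructor
    · intro j
      by_cases hj : j = m + 1
      · subst hj
        have h1 := not_isDD x.2
        constructor
        · intro h2; exact absurd h2 h1
        · rintro ⟨h2, _⟩; exact absurd h2 h
      · have h1 := H j
        rw [isDD_EE] at h1
        constructor
        · intro h2
          have h3 := h1.mp (Or.inl h2)
          exact ⟨h3.1, by omega⟩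
        · rintro ⟨h2, h3⟩
          rcases h1.mpr ⟨h2, by omega⟩ with h4 | h4
          · exact h4
          · exact absurd h4.1 hj
    · intro h1
      have h2 := (H (m + 1)).mp (by rw [isDD_EE]; exact Or.inr ⟨rfl, h1.1, h1.2⟩)
      exact h h2.1
  · rintro ⟨H, H2⟩ j
    rw [isDD_EE, H j]
    constructor
    · rintro (h1 | h1)
      · exact ⟨h1.1, by omega⟩
      · exact absurd h1.2 H2
    · rintro ⟨h1, h2⟩
      exact Or.inl ⟨h1, by omega⟩

lemma Ok_EE' {m : ℕ} (x : Fin (m + 2) × Equiv.Perm (Fin (m + 1))) :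
    Ok (m + 1) (EE m x) ↔ Ok (m + 1) x.2 ∧ (desc x.2 ∧ x.1.val ≤ (x.2 (Fin.last m)).val) := by
  unfold Ok
  constructor
  · intro H
    have h1 := (H (m + 1)).mpr ⟨rfl, le_rfl⟩
    rw [isDD_EE] at h1
    have h2 : desc x.2 ∧ x.1.val ≤ (x.2 (Fin.last m)).val := by
      rcases h1 with h1 | h1
      · exact absurd h1 (not_isDD x.2)
      · exact h1.2
    refine ⟨fun j => ?_, h2⟩
    constructor
    · intro h3
      have h4 := (H j).mp (by rw [isDD_EE]; exact Or.inl h3)
      rw [h4.1] at h3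
      exact absurd h3 (not_isDD x.2)
    · rintro ⟨_, h3⟩; omega
  · rintro ⟨H, H2⟩ j
    rw [isDD_EE, H j]
    constructor
    · rintro (h1 | h1)
      · exact ⟨h1.1, by omega⟩
      · exact ⟨h1.1, le_rfl⟩
    · rintro ⟨h1, h2⟩
      exact Or.inr ⟨h1, H2⟩

open scoped Classical in
/-- counting by the last value -/
noncomputable def ct {m : ℕ} (R : Equiv.Perm (Fin (m + 1)) → Prop) (k : ℕ) : ℝ :=
  ((univ.filter fun w : Equiv.Perm (Fin (m + 1)) => R w ∧ (w (Fin.last m)).val = k).card : ℝ)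

lemma ct_congr {m : ℕ} {R S : Equiv.Perm (Fin (m + 1)) → Prop} (h : ∀ w, R w ↔ S w) (k : ℕ) :
    ct R k = ct S k := by
  have h1 : R = S := funext fun w => propext (h w)
  rw [h1]

open scoped Classical in
lemma ct_add {m : ℕ} (R S : Equiv.Perm (Fin (m + 1)) → Prop) (h : ∀ w, R w → ¬ S w) (k : ℕ) :
    ct R k + ct S k = ct (fun w => R w ∨ S w) k := by
  unfold ct
  rw [← Nat.cast_add, ← card_union_of_disjoint]
  · congr 2
    ext w
    simp only [mem_union, mem_filter, mem_univ, true_and]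
    tauto
  · rw [disjoint_left]
    intro w hw hw'
    simp only [mem_filter, mem_univ, true_and] at hw hw'
    exact h w hw.1 hw'.1

open scoped Classical in
lemma ct_sum {m : ℕ} (R : Equiv.Perm (Fin (m + 1)) → Prop) (s : Finset ℕ) :
    ∑ k ∈ s, ct R k = ((univ.filter fun w : Equiv.Perm (Fin (m + 1)) =>
      R w ∧ (w (Fin.last m)).val ∈ s).card : ℝ) := by
  unfold ct
  rw [← Nat.cast_sum]
  congr 1
  rw [card_eq_sum_card_fiberwise (f := fun w : Equiv.Perm (Fin (m + 1)) => (w (Fin.last m)).val)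
    (t := s)]
  · refine sum_congr rfl fun k hk => ?_
    congr 1
    ext w
    simp only [mem_filter, mem_univ, true_and]
    constructor
    · rintro ⟨h1, h2⟩; exact ⟨⟨h1, by rw [h2]; exact hk⟩, h2⟩
    · rintro ⟨⟨h1, _⟩, h2⟩; exact ⟨h1, h2⟩
  · intro w hw
    simp only [coe_filter, mem_univ, true_and, Set.mem_ofPred_eq] at hw
    exact hw.2

open scoped Classical in
/-- the extension of a class of permutations -/
lemma ct_EE {m : ℕ} (R : Equiv.Perm (Fin (m + 2)) → Prop) (k : ℕ) (hk : k < m + 2) :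
    ct R k = ((univ.filter fun w : Equiv.Perm (Fin (m + 1)) => R (EE m (⟨k, hk⟩, w))).card : ℝ) := by
  unfold ct
  congr 1
  symm
  refine card_bij (fun w _ => EE m (⟨k, hk⟩, w)) ?_ ?_ ?_
  · intro w hw
    simp only [mem_filter, mem_univ, true_and] at hw ⊢
    exact ⟨hw, by rw [EE_last]⟩
  · intro w _ w' _ h
    have := (EE_bij m).1 h
    simpa using this
  · intro w hw
    simp only [mem_filter, mem_univ, true_and] at hw
    obtain ⟨⟨a, w'⟩, rfl⟩ := (EE_bij m).2 w
    have h1 : a = ⟨k, hk⟩ := by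
      apply Fin.ext
      have h2 := hw.2
      rw [EE_last] at h2
      exact h2
    subst h1
    exact ⟨w', by simpa using hw.1, rfl⟩

/-- ending with an ascent -/
noncomputable def cA (i m : ℕ) : ℕ → ℝ :=
  ct fun w : Equiv.Perm (Fin (m + 1)) => Ok i w ∧ ¬ desc w

/-- ending with a descent -/
noncomputable def cD (i m : ℕ) : ℕ → ℝ :=
  ct fun w : Equiv.Perm (Fin (m + 1)) => Ok i w ∧ desc w

lemma cA_succ {i m : ℕ} (h : m + 1 ≠ i) (k : ℕ) (hk : k ≤ m + 1) :
    cA i (m + 1) k = lo (fun k => cA i m k + cD i m k) k := by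
  classical
  unfold lo
  simp only [cA, cD]
  have h1 : ∀ j : ℕ, ct (fun w : Equiv.Perm (Fin (m + 1)) => Ok i w ∧ ¬ desc w) j +
      ct (fun w : Equiv.Perm (Fin (m + 1)) => Ok i w ∧ desc w) j =
      ct (fun w : Equiv.Perm (Fin (m + 1)) => Ok i w) j := by
    intro j
    rw [ct_add _ _ (fun w hw hw' => hw.2 hw'.2)]
    refine ct_congr (fun w => ⟨?_, fun h2 => ?_⟩) j
    · rintro (h2 | h2) <;> exact h2.1
    · by_cases h3 : desc w
      · exact Or.inr ⟨h2, h3⟩
      · exact Or.inl ⟨h2, h3⟩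
  rw [sum_congr rfl fun j _ => h1 j, ct_sum, ct_EE _ k (by omega)]
  congr 2
  ext w
  simp only [mem_filter, mem_univ, true_and, mem_range]
  rw [Ok_EE _ h, desc_EE]
  simp only
  constructor
  · rintro ⟨⟨h2, _⟩, h3⟩; exact ⟨h2, by omega⟩
  · rintro ⟨h2, h3⟩
    exact ⟨⟨h2, fun h4 => by omega⟩, by omega⟩

lemma cD_succ {i m : ℕ} (h : m + 1 ≠ i) (k : ℕ) (hk : k ≤ m + 1) :
    cD i (m + 1) k = hi m (cA i m) k := by
  classical
  unfold hi cA cD
  rw [ct_sum, ct_EE _ k (by omega)]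
  congr 2
  ext w
  simp only [mem_filter, mem_univ, true_and, mem_Ico]
  rw [Ok_EE _ h, desc_EE]
  simp only
  have h5 := (w (Fin.last m)).isLt
  constructor
  · rintro ⟨⟨h2, h3⟩, h4⟩; exact ⟨⟨h2, fun h6 => h3 ⟨h6, h4⟩⟩, h4, h5⟩
  · rintro ⟨⟨h2, h3⟩, h4, _⟩
    exact ⟨⟨h2, fun h6 => h3 h6.1⟩, h4⟩

lemma cA_at (m : ℕ) (k : ℕ) (hk : k ≤ m + 1) : cA (m + 1) (m + 1) k = 0 := by
  unfold cA
  rw [ct_EE _ k (by omega), Nat.cast_eq_zero, card_eq_zero]
  refine eq_empty_of_forall_notMem fun w hw => ?_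
  simp only [mem_filter] at hw
  rw [Ok_EE', desc_EE] at hw
  exact hw.2.2 hw.2.1.2.2

lemma cD_at (m : ℕ) (k : ℕ) (hk : k ≤ m + 1) :
    cD (m + 1) (m + 1) k = hi m (cD (m + 1) m) k := by
  classical
  unfold hi cD
  rw [ct_sum, ct_EE _ k (by omega)]
  congr 2
  ext w
  simp only [mem_filter, mem_univ, true_and, mem_Ico]
  rw [Ok_EE', desc_EE]
  simp only
  have h5 := (w (Fin.last m)).isLt
  constructor
  · rintro ⟨⟨h2, h3⟩, h4⟩; exact ⟨⟨h2, h3.1⟩, h4, h5⟩
  · rintro ⟨⟨h2, h3⟩, h4, _⟩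
    exact ⟨⟨h2, h3, h4⟩, h4⟩

/-! ## The state functions -/

/-- the functions of the counts -/
noncomputable def UU (i m : ℕ) : ℝ → ℝ := LL m (cA i m)
noncomputable def VV (i m : ℕ) : ℝ → ℝ := LL m (cD i m)

lemma UU_succ {i m : ℕ} (h : m + 1 ≠ i) (x : ℝ) :
    UU i (m + 1) x = ∫ t in (0:ℝ)..x, (UU i m t + VV i m t) := by
  unfold UU VV
  simp only [LL_add]
  rw [int_lo]
  exact LL_congr (fun k hk => cA_succ h k hk) x

lemma VV_succ {i m : ℕ} (h : m + 1 ≠ i) (x : ℝ) :
    VV i (m + 1) x = ∫ t in x..(1:ℝ), UU i m t := by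
  unfold UU VV
  rw [int_hi]
  exact LL_congr (fun k hk => cD_succ h k hk) x

lemma UU_at (m : ℕ) (x : ℝ) : UU (m + 1) (m + 1) x = 0 := by
  unfold UU
  rw [LL_congr (g := fun _ => 0) (fun k hk => cA_at m k hk)]
  unfold LL
  simp

lemma VV_at (m : ℕ) (x : ℝ) : VV (m + 1) (m + 1) x = ∫ t in x..(1:ℝ), VV (m + 1) m t := by
  unfold VV
  rw [int_hi]
  exact LL_congr (fun k hk => cD_at m k hk) x

lemma not_desc_zero (w : Equiv.Perm (Fin 1)) : ¬ desc w := by
  rintro ⟨h, _⟩; omega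

lemma ok_zero {i : ℕ} (hi : 1 ≤ i) (w : Equiv.Perm (Fin 1)) : Ok i w := by
  intro j
  constructor
  · rintro ⟨h1, h2, _⟩; omega
  · rintro ⟨_, h⟩; omega

lemma start {i : ℕ} (hi : 1 ≤ i) : UU i 0 = u 0 ∧ VV i 0 = v 0 := by
  have e1 : cA i 0 0 = 1 := by
    unfold cA ct
    rw [Nat.cast_eq_one, card_eq_one]
    refine ⟨1, ?_⟩
    ext w
    simp only [mem_filter, mem_singleton]
    constructor
    · intro _; exact Equiv.ext fun x => Subsingleton.elim (α := Fin 1) _ _
    · intro _; exact ⟨mem_univ _, ⟨ok_zero hi w, not_desc_zero w⟩, by omega⟩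
  have e2 : cD i 0 0 = 0 := by
    unfold cD ct
    rw [Nat.cast_eq_zero, card_eq_zero]
    refine eq_empty_of_forall_notMem fun w hw => ?_
    simp only [mem_filter] at hw
    exact not_desc_zero w hw.2.1.2
  constructor
  · funext x
    rw [u_zero]
    unfold UU LL be
    simp [e1]
  · funext x
    rw [v_zero]
    unfold VV LL be
    simp [e2]

lemma before {i : ℕ} (m : ℕ) (h : m < i) : UU i m = u m ∧ VV i m = v m := by
  induction m with
  | zero => exact start (by omega)
  | succ m ih =>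
    obtain ⟨h1, h2⟩ := ih (by omega)
    constructor
    · funext x
      rw [UU_succ (by omega), h1, h2, u_succ]
    · funext x
      rw [VV_succ (by omega), h1, v_succ]

/-! ## The adjoint recursion -/

lemma UU_cont (i m : ℕ) : Continuous (UU i m) := LL_cont m _
lemma VV_cont (i m : ℕ) : Continuous (VV i m) := LL_cont m _

/-- one step of the pairing -/
lemma step {i m : ℕ} (h : m + 1 ≠ i) (q : ℕ) :
    (∫ x in (0:ℝ)..1, (UU i (m + 1) x * (u q (1 - x) + v q (1 - x)) +
      VV i (m + 1) x * u q (1 - x))) =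
    ∫ x in (0:ℝ)..1, (UU i m x * (u (q + 1) (1 - x) + v (q + 1) (1 - x)) +
      VV i m x * u (q + 1) (1 - x)) := by
  have cu : Continuous fun x : ℝ => u q (1 - x) := (u_cont q).comp (by fun_prop)
  have cv : Continuous fun x : ℝ => v q (1 - x) := (v_cont q).comp (by fun_prop)
  have cu' : Continuous fun x : ℝ => u (q + 1) (1 - x) := (u_cont (q + 1)).comp (by fun_prop)
  have cv' : Continuous fun x : ℝ => v (q + 1) (1 - x) := (v_cont (q + 1)).comp (by fun_prop)
  have cU := UU_cont i m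
  have cV := VV_cont i m
  have cU' := UU_cont i (m + 1)
  have cV' := VV_cont i (m + 1)
  have s1 := swap (F := fun t => UU i m t + VV i m t) (g := fun x => u q (1 - x) + v q (1 - x))
    (cU.add cV) (cu.add cv)
  have s2 := swap (F := fun x => u q (1 - x)) (g := fun t => UU i m t) cu cU
  have r1 : ∀ x : ℝ, (∫ t in x..(1:ℝ), (u q (1 - t) + v q (1 - t))) = u (q + 1) (1 - x) := by
    intro x
    rw [refl_left (fun t => u q t + v q t) x, u_succ]
  have r2 : ∀ x : ℝ, (∫ t in (0:ℝ)..x, u q (1 - t)) = v (q + 1) (1 - x) := by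
    intro x
    rw [refl_right (fun t => u q t) x, v_succ]
  simp only [r1, r2, ← UU_succ h, ← VV_succ h] at s1 s2
  have a1 : (∫ x in (0:ℝ)..1, (UU i (m + 1) x * (u q (1 - x) + v q (1 - x)) +
      VV i (m + 1) x * u q (1 - x))) =
      (∫ x in (0:ℝ)..1, UU i (m + 1) x * (u q (1 - x) + v q (1 - x))) +
        ∫ x in (0:ℝ)..1, VV i (m + 1) x * u q (1 - x) :=
    intervalIntegral.integral_add (ii (cU'.mul (cu.add cv)) 0 1) (ii (cV'.mul cu) 0 1)
  have a2 : (∫ x in (0:ℝ)..1, ((UU i m x + VV i m x) * u (q + 1) (1 - x) +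
      UU i m x * v (q + 1) (1 - x))) =
      (∫ x in (0:ℝ)..1, (UU i m x + VV i m x) * u (q + 1) (1 - x)) +
        ∫ x in (0:ℝ)..1, UU i m x * v (q + 1) (1 - x) :=
    intervalIntegral.integral_add (ii ((cU.add cV).mul cu') 0 1) (ii (cU.mul cv') 0 1)
  rw [a1]
  have e1 : (∫ x in (0:ℝ)..1, UU i (m + 1) x * (u q (1 - x) + v q (1 - x))) =
      ∫ x in (0:ℝ)..1, (UU i m x + VV i m x) * u (q + 1) (1 - x) := by
    rw [s1]
    congr 1
    funext x
    ring
  have e2 : (∫ x in (0:ℝ)..1, VV i (m + 1) x * u q (1 - x)) =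
      ∫ x in (0:ℝ)..1, UU i m x * v (q + 1) (1 - x) := by
    rw [← s2]
    congr 1
    funext x
    ring
  rw [e1, e2, ← a2]
  congr 1
  funext x
  ring

lemma steps {i m : ℕ} (h : i ≤ m) (q : ℕ) :
    (∫ x in (0:ℝ)..1, (UU i (m + q) x + VV i (m + q) x)) =
    ∫ x in (0:ℝ)..1, (UU i m x * (u q (1 - x) + v q (1 - x)) + VV i m x * u q (1 - x)) := by
  have key : ∀ r s : ℕ, (∫ x in (0:ℝ)..1, (UU i (m + r + s) x * (u 0 (1 - x) + v 0 (1 - x)) +
      VV i (m + r + s) x * u 0 (1 - x))) =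
      ∫ x in (0:ℝ)..1, (UU i (m + r) x * (u s (1 - x) + v s (1 - x)) +
        VV i (m + r) x * u s (1 - x)) := by
    intro r s
    induction s generalizing r with
    | zero => rfl
    | succ s ih =>
      have h1 := ih (r + 1)
      have e1 : m + (r + 1) + s = m + r + (s + 1) := by omega
      have e2 : m + (r + 1) = m + r + 1 := by omega
      rw [e1, e2, step (by omega)] at h1
      exact h1
  have h2 := key 0 q
  simp only [add_zero, u_zero, v_zero, mul_one] at h2
  exact h2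

lemma total {i m : ℕ} (h : i ≤ m) : (dd {i} (m + 1) : ℝ) =
    (m + 1).factorial * ∫ x in (0:ℝ)..1, (UU i m x + VV i m x) := by
  classical
  have h1 : (∫ x in (0:ℝ)..1, (UU i m x + VV i m x)) =
      (∑ k ∈ range (m + 1), (cA i m k + cD i m k)) / (m + 1).factorial := by
    unfold UU VV
    simp only [LL_add]
    rw [int_all]
  have h2 : ∀ k : ℕ, cA i m k + cD i m k =
      ct (fun w : Equiv.Perm (Fin (m + 1)) => Ok i w) k := by
    intro k
    unfold cA cD
    rw [ct_add _ _ (fun w hw hw' => hw.2 hw'.2)]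
    refine ct_congr (fun w => ⟨?_, fun h2 => ?_⟩) k
    · rintro (h2 | h2) <;> exact h2.1
    · by_cases h3 : desc w
      · exact Or.inr ⟨h2, h3⟩
      · exact Or.inl ⟨h2, h3⟩
  rw [h1, sum_congr rfl fun k _ => h2 k, ct_sum, mul_div_cancel₀ _ (by positivity)]
  unfold dd
  rw [Nat.card_eq_fintype_card, Fintype.card_subtype]
  congr 2
  ext w
  rw [mem_filter, mem_filter]
  refine and_congr Iff.rfl ?_
  constructor
  · intro h3
    refine ⟨fun j => ?_, mem_range.mpr (w (Fin.last m)).isLt⟩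
    have h4 : j ∈ {j | IsDoubleDescent w j} ↔ j ∈ ({i} : Set ℕ) := by rw [h3]
    rw [Set.mem_ofPred_eq, Set.mem_singleton_iff] at h4
    rw [h4]
    exact ⟨fun h5 => ⟨h5, h⟩, fun h5 => h5.1⟩
  · rintro ⟨h3, _⟩
    ext j
    rw [Set.mem_ofPred_eq, Set.mem_singleton_iff, h3 j]
    exact ⟨fun h5 => h5.1, fun h5 => ⟨h5, h⟩⟩

/-- **JOB A.** The counting formula. -/
theorem comb : StComb := by
  intro n i hi hin
  obtain ⟨a, rfl⟩ : ∃ a, i = a + 1 := ⟨i - 1, by omega⟩
  obtain ⟨q, rfl⟩ : ∃ q, n = a + 1 + q + 1 := ⟨n - (a + 2), by omega⟩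
  have h1 := total (i := a + 1) (m := a + 1 + q) (by omega)
  rw [h1, steps le_rfl q]
  obtain ⟨_, hv⟩ := before (i := a + 1) a (by omega)
  congr 1
  have cu : Continuous fun x : ℝ => u q (1 - x) := (u_cont q).comp (by fun_prop)
  have e1 : (∫ x in (0:ℝ)..1, (UU (a + 1) (a + 1) x * (u q (1 - x) + v q (1 - x)) +
      VV (a + 1) (a + 1) x * u q (1 - x))) =
      ∫ x in (0:ℝ)..1, u q (1 - x) * ∫ t in x..(1:ℝ), v a t := by
    congr 1
    funext x
    rw [UU_at, VV_at, hv, zero_mul, zero_add, mul_comm]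
  rw [e1, swap cu (v_cont a)]
  unfold TT
  have e2 : a + 1 + q + 1 - (a + 1) = q + 1 := by omega
  rw [e2, Nat.add_sub_cancel]
  congr 1
  funext x
  rw [refl_right (fun t => u q t) x, v_succ]

end Pool.Agent.Q34.DDs
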